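import Pool.Agent.H72R.Geo

/-!
# The degree of the dual variety of a reciprocal linear space

Projective varieties in `ℙ^n` are described by their affine cones in `ℂ^(n+1)`. For linear forms `ℓ_0, …, ℓ_n` on
`ℂ^(d+1)` which span its dual and whose matroid is connected, the dual variety of the reciprocal linear space `L⁻¹` is a
hypersurface of degree `2^d β(L)`.
-/

set_option autoImplicit false

open MvPolynomial Module

namespace Pool.Agent.Results.MP_0aec2a_ag.DualDegree

/-- `n + 1` linear forms `ℓ_0, …, ℓ_n` on `ℂ^(d+1)` -/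
abbrev Forms (d n : ℕ) : Type := Fin (n + 1) → Module.Dual ℂ (Fin (d + 1) → ℂ)

variable {d n : ℕ}

/-- The rank function of the matroid `M(L)` represented by `ℓ_0, …, ℓ_n`: the dimension of the span of the `ℓ_i`,
`i ∈ S`. -/
noncomputable def rk (l : Forms d n) (S : Finset (Fin (n + 1))) : ℕ :=
  finrank ℂ (Submodule.span ℂ (l '' (S : Set (Fin (n + 1)))))

/-- `M(L)` is connected: no nonempty proper subset `S` of the ground set `E` satisfies `r(S) + r(E ∖ S) = r(E)`. -/
def Connected (l : Forms d n) : Prop :=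
  ∀ S : Finset (Fin (n + 1)), S.Nonempty → Sᶜ.Nonempty → rk l S + rk l Sᶜ ≠ rk l Finset.univ

/-- The beta invariant `β(L) = (-1)^(r(E)) ∑_{S ⊆ E} (-1)^|S| r(S)`. -/
noncomputable def beta (l : Forms d n) : ℤ :=
  (-1) ^ rk l Finset.univ * ∑ S : Finset (Fin (n + 1)), (-1) ^ S.card * (rk l S : ℤ)

/-- The points `(1/ℓ_0(t), …, 1/ℓ_n(t))`, for `t` off all the hyperplanes `ℓ_i = 0`. -/
def recipPoints (l : Forms d n) : Set (Fin (n + 1) → ℂ) :=
  {y | ∃ t : Fin (d + 1) → ℂ, (∀ i, l i t ≠ 0) ∧ y = fun i => (l i t)⁻¹}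

/-- The Zariski closure of a set of points of `ℂ^(n+1)`: the common zeros of the polynomials vanishing on it. -/
def zariski (Z : Set (Fin (n + 1) → ℂ)) : Set (Fin (n + 1) → ℂ) :=
  zeroLocus ℂ (vanishingIdeal ℂ Z)

/-- The affine cone over the reciprocal linear space `L⁻¹`. -/
def recipCone (l : Forms d n) : Set (Fin (n + 1) → ℂ) := zariski (recipPoints l)

/-- The tangent space at `y` of a closed set `X`: the common kernel of the differentials at `y` of all the polynomials
vanishing on `X`. -/
def tangent (X : Set (Fin (n + 1) → ℂ)) (y : Fin (n + 1) → ℂ) : Submodule ℂ (Fin (n + 1) → ℂ) where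
  carrier := {v | ∀ f ∈ vanishingIdeal ℂ X, ∑ i, aeval y (pderiv i f) * v i = 0}
  add_mem' := by
    intro a b ha hb f hf
    simp only [Pi.add_apply, mul_add, Finset.sum_add_distrib, ha f hf, hb f hf, add_zero]
  zero_mem' := by
    intro f _
    simp
  smul_mem' := by
    intro c a ha f hf
    have : ∑ i, aeval y (pderiv i f) * (c • a) i = c * ∑ i, aeval y (pderiv i f) * a i := by
      rw [Finset.mul_sum]
      refine Finset.sum_congr rfl fun i _ => ?_
      simp only [Pi.smul_apply, smul_eq_mul]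
      ring
    rw [this, ha f hf, mul_zero]

/-- `[y]` is a smooth point of the `d`-dimensional projective variety `L⁻¹`: `y ≠ 0` lies in the affine cone and the
tangent space of the cone at `y` has dimension `d + 1`. -/
def SmoothPoint (l : Forms d n) (y : Fin (n + 1) → ℂ) : Prop :=
  y ∈ recipCone l ∧ y ≠ 0 ∧ finrank ℂ (tangent (recipCone l) y) = d + 1

/-- The coefficient vectors `u` of the hyperplanes `∑ u_i v_i = 0` tangent to `L⁻¹` at some smooth point `[y]`, that is,
containing the tangent space there (together with `u = 0`, the vertex of the cone). -/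
def tangentHyperplanes (l : Forms d n) : Set (Fin (n + 1) → ℂ) :=
  {u | ∃ y, SmoothPoint l y ∧ ∀ v ∈ tangent (recipCone l) y, ∑ i, u i * v i = 0}

/-- The affine cone over the dual variety `∇(L⁻¹)`. -/
def dualCone (l : Forms d n) : Set (Fin (n + 1) → ℂ) := zariski (tangentHyperplanes l)

open Pool.Agent.H72R

theorem van_zariski (Z : Set (Fin (n + 1) → ℂ)) :
    vanishingIdeal ℂ (zariski Z) = vanishingIdeal ℂ Z := by
  apply le_antisymm
  · intro f hf y hy
    exact hf y fun g hg => hg y hy
  · intro f hf y hy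
    exact hy f hf

/-- the linear space -/
def Lsp (l : Forms d n) : Submodule ℂ (Fin (n + 1) → ℂ) := LinearMap.range (LinearMap.pi l)

theorem recip_eq (l : Forms d n) : recipPoints l = rp (Lsp l) := by
  ext y
  constructor
  · rintro ⟨t, ht, rfl⟩
    exact ⟨LinearMap.pi l t, ⟨t, rfl⟩, ht, rfl⟩
  · rintro ⟨x, ⟨t, rfl⟩, hx, rfl⟩
    exact ⟨t, hx, rfl⟩

theorem tangent_eq (l : Forms d n) (y : Fin (n + 1) → ℂ) :
    tangent (recipCone l) y = tg (Lsp l) y := by
  ext v
  show (∀ f ∈ vanishingIdeal ℂ (zariski (recipPoints l)), _) ↔ ∀ f ∈ vanishingIdeal ℂ (rp (Lsp l)), _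
  rw [van_zariski, recip_eq]

theorem pi_injective {l : Forms d n} (h : Submodule.span ℂ (Set.range l) = ⊤) :
    Function.Injective (LinearMap.pi l) := by
  rw [← LinearMap.ker_eq_bot, LinearMap.ker_eq_bot']
  intro t ht
  rw [← Module.forall_dual_apply_eq_zero_iff ℂ t]
  intro φ
  have hφ : φ ∈ Submodule.span ℂ (Set.range l) := by
    rw [h]
    trivial
  induction hφ using Submodule.span_induction with
  | mem x hx =>
    obtain ⟨i, rfl⟩ := hx
    exact congrFun ht i
  | zero => rfl
  | add a b _ _ ha hb => rw [LinearMap.add_apply, ha, hb, add_zero]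
  | smul c a _ ha => rw [LinearMap.smul_apply, ha, smul_zero]

theorem finrank_Lsp {l : Forms d n} (h : Submodule.span ℂ (Set.range l) = ⊤) :
    finrank ℂ (Lsp l) = d + 1 := by
  unfold Lsp
  rw [LinearMap.finrank_range_of_inj (pi_injective h)]
  simp

theorem rk_add_z {l : Forms d n} (h : Submodule.span ℂ (Set.range l) = ⊤)
    (S : Finset (Fin (n + 1))) : rk l S + z (Lsp l) S = d + 1 := by
  have h1 := Subspace.finrank_add_finrank_dualCoannihilator_eq
    (Submodule.span ℂ (l '' (S : Set (Fin (n + 1)))))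
  have h2 : (Submodule.span ℂ (l '' (S : Set (Fin (n + 1))))).dualCoannihilator.map (LinearMap.pi l) =
      Lsp l ⊓ vz S := by
    ext v
    constructor
    · rintro ⟨t, ht, rfl⟩
      refine ⟨⟨t, rfl⟩, fun i hi => ?_⟩
      have h3 := (Submodule.mem_dualCoannihilator _).1 ht (l i)
        (Submodule.subset_span ⟨i, hi, rfl⟩)
      exact h3
    · rintro ⟨⟨t, rfl⟩, ht⟩
      refine ⟨t, ?_, rfl⟩
      rw [SetLike.mem_coe, Submodule.mem_dualCoannihilator]
      intro φ hφ
      induction hφ using Submodule.span_induction with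
      | mem x hx =>
        obtain ⟨i, hi, rfl⟩ := hx
        exact ht i hi
      | zero => rfl
      | add a b _ _ ha hb => rw [LinearMap.add_apply, ha, hb, add_zero]
      | smul c a _ ha => rw [LinearMap.smul_apply, ha, smul_zero]
  have h3 : z (Lsp l) S = finrank ℂ (Submodule.span ℂ (l '' (S : Set (Fin (n + 1))))).dualCoannihilator := by
    unfold z
    rw [← h2]
    exact (LinearEquiv.finrank_eq (Submodule.equivMapOfInjective _ (pi_injective h) _)).symm
  rw [h3]
  unfold rk
  rw [h1]
  simp

theorem rk_univ {l : Forms d n} (h : Submodule.span ℂ (Set.range l) = ⊤) :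
    rk l Finset.univ = d + 1 := by
  have h1 := rk_add_z h Finset.univ
  rw [z_univ, add_zero] at h1
  exact h1

theorem noSep_of_connected {l : Forms d n} (h : Submodule.span ℂ (Set.range l) = ⊤)
    (hc : Connected l) : NoSep (Lsp l) := by
  classical
  intro S hS
  by_contra hcon
  push Not at hcon
  obtain ⟨h1, h2⟩ := hcon
  have hST : ((Finset.univ.filter (· ∈ S) : Finset (Fin (n + 1))) : Set (Fin (n + 1))) = S := by
    ext i
    simp
  have h3 := z_of_sep (L := Lsp l) ∅ (Finset.univ.filter (· ∈ S)) (by rw [hST]; exact hS)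
  rw [Finset.empty_union, Finset.empty_union, z_empty, finrank_Lsp h] at h3
  apply hc (Finset.univ.filter (· ∈ S))
  · obtain ⟨i, hi⟩ := h1
    exact ⟨i, by simp [hi]⟩
  · obtain ⟨j, hj⟩ := (Set.ne_univ_iff_exists_notMem S).1 h2
    exact ⟨j, by simp [hj]⟩
  · have h4 := rk_add_z h (Finset.univ.filter (· ∈ S))
    have h5 := rk_add_z h (Finset.univ.filter (· ∈ S))ᶜ
    have h6 := rk_univ h
    omega

theorem noLoop_of_connected {l : Forms d n} (h : Submodule.span ℂ (Set.range l) = ⊤)
    (hc : Connected l) : NoLoop (Lsp l) := by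
  rcases Nat.eq_zero_or_pos n with hn | hn
  · subst hn
    rw [noLoop_iff]
    intro i
    have h1 := finrank_Lsp h
    have h2 : Lsp l ≠ ⊥ := by
      intro h3
      rw [h3, finrank_bot] at h1
      omega
    obtain ⟨v, hv, hv0⟩ := Submodule.exists_mem_ne_zero_of_ne_bot h2
    have h3 : v i ≠ 0 := by
      intro h0
      apply hv0
      funext j
      have hji : j = i := by omega
      rw [hji, h0]
      rfl
    exact ⟨(v i)⁻¹ • v, (Lsp l).smul_mem _ hv, by simp [h3]⟩
  · exact noLoop_of_noSep (by omega) (noSep_of_connected h hc)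

theorem beta_eq {l : Forms d n} (h : Submodule.span ℂ (Set.range l) = ⊤) :
    beta l = bt (Lsp l) := by
  unfold beta bt bz
  rw [rk_univ h, finrank_Lsp h]
  have h1 : ∀ S : Finset (Fin (n + 1)), (-1 : ℤ) ^ S.card * (rk l S : ℤ) =
      (d + 1) * (-1) ^ S.card - (-1) ^ S.card * (z (Lsp l) S : ℤ) := by
    intro S
    have h2 := rk_add_z h S
    have h3 : (rk l S : ℤ) = (d + 1) - (z (Lsp l) S : ℤ) := by
      have : ((rk l S + z (Lsp l) S : ℕ) : ℤ) = ((d + 1 : ℕ) : ℤ) := by rw [h2]
      push_cast at this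
      linarith
    rw [h3]
    ring
  have h2 : ∑ S : Finset (Fin (n + 1)), (-1 : ℤ) ^ S.card = 0 := by
    have h3 := Finset.sum_powerset_neg_one_pow_card_of_nonempty
      (x := (Finset.univ : Finset (Fin (n + 1)))) Finset.univ_nonempty
    rwa [Finset.powerset_univ] at h3
  rw [Finset.sum_congr rfl fun S _ => h1 S, Finset.sum_sub_distrib, ← Finset.mul_sum, h2]
  ring

theorem hyperplanes_eq {l : Forms d n} :
    tangentHyperplanes l = th (Lsp l) (d + 1) := by
  ext u
  constructor
  · rintro ⟨y, ⟨h1, h2, h3⟩, h4⟩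
    rw [tangent_eq] at h3 h4
    refine ⟨y, ?_, h2, h3, h4⟩
    rw [← recip_eq]
    exact h1
  · rintro ⟨y, h1, h2, h3, h4⟩
    rw [← tangent_eq] at h3 h4
    refine ⟨y, ⟨?_, h2, h3⟩, h4⟩
    rw [← recip_eq] at h1
    exact h1

/-- **Theorem.** Let `ℓ_0, …, ℓ_n` be linear forms on `ℂ^(d+1)` which span its dual and whose matroid `M(L)` is connected.
Then the dual variety of the reciprocal linear space `L⁻¹` is a hypersurface of degree `2^d β(L)`: its vanishing ideal is
generated by an irreducible form `Δ` of degree `N = 2^d β(L)`, and it is the zero locus of `Δ`. -/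
theorem result (d n : ℕ) (l : Forms d n) (hspan : Submodule.span ℂ (Set.range l) = ⊤)
    (hconn : Connected l) :
    ∃ (Δ : MvPolynomial (Fin (n + 1)) ℂ) (N : ℕ), Irreducible Δ ∧ Δ.IsHomogeneous N ∧
      vanishingIdeal ℂ (dualCone l) = Ideal.span {Δ} ∧ dualCone l = {u | eval u Δ = 0} ∧
      (N : ℤ) = 2 ^ d * beta l := by
  obtain ⟨D, N, hD, hN⟩ := main n (Lsp l) (noLoop_of_connected hspan hconn)
    (noSep_of_connected hspan hconn)
  have h1 : vanishingIdeal ℂ (tangentHyperplanes l) = Ideal.span {D} := by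
    have h2 := van_th (noLoop_of_connected hspan hconn)
    rw [finrank_Lsp hspan] at h2
    rw [hyperplanes_eq, h2, hD.gen]
  refine ⟨D, N, hD.irr, hD.hom, ?_, ?_, ?_⟩
  · unfold dualCone
    rw [van_zariski, h1]
  · unfold dualCone zariski
    rw [h1]
    ext u
    have hev : ∀ p : MvPolynomial (Fin (n + 1)) ℂ, aeval u p = eval u p := by
      intro p
      rw [← coe_aeval_eq_eval]
      rfl
    rw [mem_zeroLocus_iff, Set.mem_ofPred_eq]
    constructor
    · intro h
      rw [← hev]
      exact h D (Ideal.mem_span_singleton_self D)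
    · intro h p hp
      obtain ⟨q, rfl⟩ := Ideal.mem_span_singleton.1 hp
      rw [map_mul, hev D, h, zero_mul]
  · rw [hN, beta_eq hspan, finrank_Lsp hspan]
    rfl

end Pool.Agent.Results.MP_0aec2a_ag.DualDegree
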